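import Pool.Agent.MWA.StmtsB

/-! # Squad MWA (MP_23468a_al), row RA4 -/

set_option autoImplicit false

namespace Pool.Agent.MWA.H26

open Pool.Agent.Helper14_MV Pool.Agent.Helper2_MV Pool.Agent.MVO Pool.Agent.MWL Pool.Agent.MWS

theorem ra4 (hTRN : MWL.TrnStmt) (hUSE : UseStmt) (hABU : AbuStmt) (hBTF : BtfStmt)
    (hBTA : BtaStmt) (hMVA : MvaStmt) (hEQV : EqvStmt) (hRCM : RcmStmt) : Ra4Stmt := by
  intro β hβ hR hJ hD hC θ hle _ k a b i j hda hdb hLa hLb hji hA hnA
  rcases hRCM β hβ hR hJ θ hle k a b i j hda hdb hLa hLb hji hA with h | ⟨hAi, p, hp⟩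
  · exact Or.inl h
  have hik : i ≤ k := hLa.1
  have hji' : j < i := by
    rcases Nat.lt_or_eq_of_le hji with h | h
    · exact h
    · subst h
      exact absurd hAi hnA
  by_cases hpj : p < j
  · refine Or.inr ?_
    refine hEQV β hβ k a b i j i hda hdb hLa hLb hji' le_rfl hAi ?_
    intro r hr hri
    rw [hp.2.2 r (by omega), if_neg (by omega)]
  refine Or.inl ?_
  have hjp : j ≤ p := Nat.le_of_not_lt hpj
  have hpi : p < i := hp.1
  have haj : a j = 0 := by
    by_contra hne
    apply hnA
    have h1 : AbF β k (a2 a i) j := by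
      have h2 := (hABU β).1 1 2 k j i 0 (a2 a i) (by omega) hD hji hik ?_
      · simpa using h2
      · intro t _
        unfold a2
        by_cases h3 : t = j
        · subst h3
          rw [if_pos rfl, if_neg (by omega)]
          omega
        · rw [if_neg h3]
          omega
    exact ((hTRN 1 (FC.ofFIC β) k a j).1 (a2 a i) hAi).2 h1
  have hθ : BsA θ := hβ.mono hle
  have hAiθ : AbF θ k a i := hAi.mono hle
  have hAp : AbF θ k a p := by
    rcases Nat.lt_or_eq_of_le hjp with h | h
    · exact hMVA θ hθ.ap k a j p i (Or.inl ⟨h, hpi⟩) (by omega) hik haj hA hAiθ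
    · rw [← h]
      exact hA
  have h1 : AbF θ k (a2 a p) i := ((hTRN 1 (FC.ofFIC θ) k a i).1 (a2 a p) hAp).1 hAiθ
  have hac : L1 θ k a (a2 (a2 a p) i) := (FC.ofFIC θ).trans hAp h1
  have hbb : L1 θ k b b := (FC.ofFIC θ).refl k b
  have h2 : Bt β k b (a2 (a2 a p) i) i := by
    refine (hUSE β hβ.cl).1 1 1 1 2 k p i b (a2 (a2 a p) i) (by omega) (by omega) (by omega)
      (by omega) hC (by omega) hik ?_ ?_
    · intro t ht
      rw [hp.2.2 t ht]
      by_cases h3 : t = p
      · rw [if_pos h3, if_pos (Or.inl h3), if_neg (by omega)]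
      · rw [if_neg h3]
        by_cases h4 : t = i
        · rw [if_pos h4, if_pos (Or.inr h4)]
        · rw [if_neg h4]
          omega
    · intro t _
      unfold a2
      by_cases h3 : t = p
      · rw [if_pos h3, if_pos h3, if_neg (by omega)]
        omega
      · rw [if_neg h3, if_neg h3]
        by_cases h4 : t = i
        · rw [if_pos h4]
          omega
        · rw [if_neg h4]
          omega
  have h3 : Bt θ k (a2 (a2 a p) i) b i := Bt.mono hle ((hBTA β hβ).2.1 k _ _ i h2)
  exact (hBTF θ k a (a2 (a2 a p) i) b b hac hbb).2 i h3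

end Pool.Agent.MWA.H26
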